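import Pool.Agent.Y500.KS.Sqrt0
import Pool.Agent.Y89.KS.Defs5

set_option autoImplicit false

namespace Pool.Agent.Y500.KS

/-- (SQRT) -/
theorem sqrt : Pool.Agent.Y89.KS.S_sqrt := fun N _ _ Z hZ => sqrt0 N Z hZ

end Pool.Agent.Y500.KS
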