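import Mathlib

set_option autoImplicit false

open Polynomial

namespace Pool.Agent.Y500.KS

/-- for a monic polynomial `q` with `q 0 ≠ 0` there is `p` with `q ∣ p ^ 2 - X` -/
theorem exists_sq (q : ℂ[X]) (hq : q.Monic) (h0 : q.coeff 0 ≠ 0) :
    ∃ p : ℂ[X], q ∣ p * p - X := by
  classical
  -- interpolation of a square root at the roots
  obtain ⟨sq, hsq⟩ : ∃ sq : ℂ → ℂ, ∀ z, sq z * sq z = z :=
    ⟨fun z => z ^ (1 / 2 : ℂ), fun z => by
      rcases eq_or_ne z 0 with rfl | hz
      · simp
      · rw [← Complex.cpow_add _ _ hz]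
        norm_num⟩
  set p0 : ℂ[X] := Lagrange.interpolate q.roots.toFinset id sq with hp0
  have hroot : ∀ μ ∈ q.roots, (X - C μ) ∣ (p0 * p0 - X) := by
    intro μ hμ
    rw [dvd_iff_isRoot, IsRoot.def, eval_sub, eval_mul, eval_X]
    have h1 : p0.eval μ = sq μ := by
      have := Lagrange.eval_interpolate_at_node (v := id) sq (s := q.roots.toFinset) (i := μ)
        (Set.injOn_id _) (Multiset.mem_toFinset.2 hμ)
      simpa [hp0] using this
    rw [h1, hsq, sub_self]
  have hprod : q = (q.roots.map (fun a => X - C a)).prod := by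
    have h := (IsAlgClosed.splits q).eq_prod_roots
    rw [hq.leadingCoeff, C_1, one_mul] at h
    exact h
  have hdvd : q ∣ (p0 * p0 - X) ^ (Multiset.card q.roots) := by
    have h1 := Multiset.prod_dvd_prod_of_dvd (S := q.roots) (fun a => X - C a)
      (fun _ => (p0 * p0 - X)) hroot
    rw [← hprod, Multiset.map_const', Multiset.prod_replicate] at h1
    exact h1
  -- the quotient ring
  let I : Ideal ℂ[X] := Ideal.span {q}
  let R := ℂ[X] ⧸ I
  let mk : ℂ[X] →+* R := Ideal.Quotient.mk I
  have hmk : ∀ f : ℂ[X], mk f = 0 ↔ q ∣ f := fun f => by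
    rw [show mk f = Ideal.Quotient.mk I f from rfl, Ideal.Quotient.eq_zero_iff_mem,
      Ideal.mem_span_singleton]
  have hnil : IsNilpotent (mk (p0 * p0 - X)) :=
    ⟨Multiset.card q.roots, by rw [← map_pow, hmk]; exact hdvd⟩
  have hXu : IsUnit (mk X) := by
    have hcop : IsCoprime (X : ℂ[X]) q := by
      rw [← isCoprime_comm]
      have h1 : ¬ (X : ℂ[X]) ∣ q := by
        rw [X_dvd_iff]
        exact h0
      exact ((irreducible_X (R := ℂ)).coprime_iff_not_dvd.2 h1).symm
    obtain ⟨a, b, hab⟩ := hcop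
    refine IsUnit.of_mul_eq_one (mk a) ?_
    rw [← map_mul, mul_comm, ← sub_eq_zero, ← map_one mk, ← map_sub, hmk]
    exact ⟨-b, by linear_combination hab⟩
  have hy : IsUnit (mk p0) := by
    have h1 : IsUnit (mk (p0 * p0)) := by
      have h2 : mk (p0 * p0) = mk X + mk (p0 * p0 - X) := by
        rw [← map_add]
        congr 1
        ring
      rw [h2]
      exact IsNilpotent.isUnit_add_left_of_commute hnil hXu (Commute.all _ _)
    rw [map_mul] at h1
    exact isUnit_of_mul_isUnit_left h1
  have h2u : IsUnit (2 : R) := by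
    have : (2 : R) = mk (C 2) := by
      simp [map_ofNat]
    rw [this]
    exact (isUnit_C.2 (by norm_num : IsUnit (2 : ℂ))).map mk
  -- Newton
  obtain ⟨r, ⟨_, hr⟩, _⟩ := existsUnique_nilpotent_sub_and_aeval_eq_zero
    (R := R) (S := R) (P := X ^ 2 - C (mk X)) (x := mk p0)
    (by
      have : aeval (mk p0) (X ^ 2 - C (mk X) : R[X]) = mk (p0 * p0 - X) := by
        simp [pow_two]
      rw [this]
      exact hnil)
    (by
      have : aeval (mk p0) (derivative (X ^ 2 - C (mk X) : R[X])) = 2 * mk p0 := by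
        simp only [derivative_sub, derivative_X_pow, derivative_C, sub_zero, map_mul, map_pow,
          aeval_X, aeval_C]
        norm_num
      rw [this]
      exact h2u.mul hy)
  obtain ⟨p, rfl⟩ := Ideal.Quotient.mk_surjective (I := I) r
  refine ⟨p, ?_⟩
  rw [← hmk]
  have e : aeval (mk p) (X ^ 2 - C (mk X) : R[X]) = mk (p * p - X) := by
    simp [pow_two]
  rw [← e]
  exact hr

theorem commute_aeval {N : Type} [Fintype N] [DecidableEq N] {Y Z : Matrix N N ℂ}
    (h : Commute Y Z) (p : ℂ[X]) : Commute Y (aeval Z p) := by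
  induction p using Polynomial.induction_on' with
  | add p q hp hq =>
      rw [map_add]
      exact hp.add_right hq
  | monomial n a =>
      rw [aeval_monomial]
      exact (Algebra.commute_algebraMap_right a Y).mul_right (h.pow_right n)

theorem sqrt0 (N : Type) [Fintype N] [DecidableEq N] (Z : Matrix N N ℂ) (hZ : IsUnit Z.det) :
    ∃ S : Matrix N N ℂ, S * S = Z ∧ ∀ X : Matrix N N ℂ, X * Z = Z * X → X * S = S * X := by
  obtain ⟨p, hp⟩ := exists_sq Z.charpoly (Matrix.charpoly_monic Z) (by
    intro h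
    rw [Matrix.det_eq_sign_charpoly_coeff, h, mul_zero] at hZ
    exact not_isUnit_zero hZ)
  refine ⟨aeval Z p, ?_, ?_⟩
  · obtain ⟨c, hc⟩ := hp
    have h1 : aeval Z (p * p - X) = 0 := by
      rw [hc, map_mul, Matrix.aeval_self_charpoly, zero_mul]
    rw [map_sub, map_mul, aeval_X, sub_eq_zero] at h1
    exact h1
  · intro Y hY
    exact commute_aeval hY p

end Pool.Agent.Y500.KS
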